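import Mathlib

set_option autoImplicit false
set_option maxSynthPendingDepth 3

namespace Pool.Agent.Results.MP_69ced1_co.Counter

open Finset

/-- total domination number. -/
noncomputable def γt {V : Type} (G : SimpleGraph V) : ℕ :=
  sInf {n | ∃ S : Finset V, S.card = n ∧ ∀ v, ∃ w ∈ S, G.Adj v w}

def B {α : Type} (M : α → α → Prop) : SimpleGraph (α ⊕ α) where
  Adj
    | .inl r, .inr c => M r c
    | .inr c, .inl r => M r c
    | _, _ => False
  symm := ⟨by rintro (a | a) (b | b) h <;> exact h⟩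
  loopless := ⟨by rintro (a | a) h <;> exact h⟩

lemma low {α : Type} [Fintype α] [Nonempty α] (M : α → α → Prop) (J : Finset α)
    (h0 : ∀ v, ∃ w, (B M).Adj v w) (h1 : ∀ j ∈ J, ∀ r, M r j → r = j) (h2 : ∀ c, ∃ r, ¬ M r c) :
    J.card + 2 ≤ γt (B M) := by
  refine le_csInf ⟨_, univ, rfl, by simpa using h0⟩ ?_
  rintro _ ⟨S, rfl, hS⟩
  have hc : ∀ r, ∃ c ∈ S.toRight, M r c := fun r => by
    obtain ⟨(w | w), h3, h4⟩ := hS (.inl r)
    exacts [h4.elim, ⟨w, by simpa using h3, h4⟩]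
  rw [← card_toLeft_add_card_toRight (u := S)]
  refine add_le_add (card_le_card fun j hj => ?_) ?_
  · obtain ⟨(w | w), h3, h4⟩ := hS (.inr j)
    exacts [by simpa [h1 j hj w h4] using h3, h4.elim]
  · obtain ⟨c, h3, -⟩ := hc (Classical.arbitrary α)
    obtain ⟨r, h4⟩ := h2 c
    obtain ⟨d, h5, h6⟩ := hc r
    exact one_lt_card.2 ⟨c, h3, d, h5, fun e => h4 (e ▸ h6)⟩

/-- for `s = 2m`, `m ≥ 2`, some factorization has `γ_t(G₁) γ_t(G₂) ≥ (m+2)²`; this exceeds `8s` for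
`m ≥ 12`. -/
theorem result (m : ℕ) (hm : 12 ≤ m) :
    ∃ G₁ G₂ : SimpleGraph (Fin (2 * m) ⊕ Fin (2 * m)),
      Disjoint G₁ G₂ ∧ G₁ ⊔ G₂ = completeBipartiteGraph (Fin (2 * m)) (Fin (2 * m)) ∧
      (∀ v, ∃ w, G₁.Adj v w) ∧ (∀ v, ∃ w, G₂.Adj v w) ∧
      (m + 2) ^ 2 ≤ γt G₁ * γt G₂ ∧ 8 * (2 * m) < γt G₁ * γt G₂ := by
  have : Nonempty (Fin (2 * m)) := ⟨⟨0, by omega⟩⟩
  let M : Fin (2 * m) → Fin (2 * m) → Prop := fun r c => (c.1 < m ↔ r = c)
  have hx : ∀ (c : Fin (2 * m)) (p : Prop), (∃ r, (p ↔ r = c)) ∧ ∃ r, ¬ (p ↔ r = c) := fun c p => by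
    have : Nontrivial (Fin (2 * m)) := Fin.nontrivial_iff_two_le.2 (by omega)
    obtain ⟨d, hd⟩ := exists_ne c
    by_cases h : p
    exacts [⟨⟨c, by simp [h]⟩, d, by simp [h, hd]⟩, ⟨⟨d, by simp [h, hd]⟩, c, by simp [h]⟩]
  have h1 : ∀ v, ∃ w, (B M).Adj v w := by
    rintro (r | c)
    · by_cases h : r.1 < m
      · exact ⟨.inr r, by simp [B, M, h]⟩
      · exact ⟨.inr ⟨if r.1 = m then m + 1 else m, by split_ifs <;> omega⟩, by
          simp only [B, M, Fin.ext_iff]; split_ifs <;> omega⟩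
    · exact (hx c _).1.elim fun r h => ⟨.inl r, h⟩
  have h2 : ∀ v, ∃ w, (B fun r c => ¬ M r c).Adj v w := by
    rintro (r | c)
    · by_cases h : r.1 < m
      · exact ⟨.inr ⟨if r.1 = 0 then 1 else 0, by split_ifs <;> omega⟩, by
          simp only [B, M, Fin.ext_iff]; split_ifs <;> omega⟩
      · exact ⟨.inr r, by simp [B, M, h]⟩
    · exact (hx c _).2.elim fun r h => ⟨.inl r, h⟩
  have h3 := low M (Iio ⟨m, by omega⟩) h1 (fun j hj r h => h.1 (Fin.lt_def.1 (mem_Iio.1 hj))) fun c => (hx c _).2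
  have h4 := low _ (Ici ⟨m, by omega⟩) h2 (fun j hj r h => by
    have : m ≤ j.1 := Fin.le_def.1 (mem_Ici.1 hj)
    simp only [M] at h
    by_contra hc
    exact h (iff_of_false (by omega) hc)) fun c => (hx c _).1.imp fun r => not_not.2
  rw [Fin.card_Iio] at h3
  rw [Fin.card_Ici, show 2 * m - m = m by omega] at h4
  have h5 := Nat.mul_le_mul h3 h4
  refine ⟨B M, _, SimpleGraph.disjoint_edgeSet.1 (Set.disjoint_left.2 ?_), ?_, h1, h2,
    by nlinarith, by nlinarith⟩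
  · rintro ⟨a | a, b | b⟩ h h' <;> first | exact h | exact h' h
  · ext (a | a) (b | b) <;> simp [B, em]

end Pool.Agent.Results.MP_69ced1_co.Counter
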